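import Pool.Agent.Lib.MP_834949_an.Uni3

namespace Pool.Agent.Lib.MP_834949_an.Old.Unimodal

open MeasureTheory

/-- `f` is unimodal on `(-1/4, 1/4)`: nondecreasing to the left of some point `c` of
`[-1/4, 1/4]` and nonincreasing to the right of it. -/
def IsUnimodal (f : ℝ → ℝ) : Prop :=
  ∃ c ∈ Set.Icc (-1 / 4 : ℝ) (1 / 4),
    MonotoneOn f (Set.Ioo (-1 / 4) c) ∧ AntitoneOn f (Set.Ioo c (1 / 4))

/-- The best constant in the autoconvolution inequality for unimodal functions is `π / 2`. -/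
theorem result : IsGreatest {C : ℝ | ∀ f : ℝ → ℝ, (∀ x, 0 ≤ f x) → MemLp f 2 volume →
    IsUnimodal f → C * (∫ x in (-1 / 4 : ℝ)..(1 / 4), f x) ^ 2 ≤
      ⨆ t : Set.Icc (-1 / 2 : ℝ) (1 / 2), ∫ x, f x * f (t - x)} (Real.pi / 2) :=
  ⟨fun _ h0 hf ⟨_, hc, hm, ha⟩ => Pool.Agent.Lib.MP_834949_an.Uni.lower_sup h0 hf hc hm ha,
    fun _ hC => Pool.Agent.Lib.MP_834949_an.Uni.upper_uni fun f h0 hf ha =>
      hC f h0 hf ⟨-1 / 4, ⟨le_rfl, by norm_num⟩, by simp [MonotoneOn], ha⟩⟩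

end Pool.Agent.Lib.MP_834949_an.Old.Unimodal
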